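import Pool.Agent.H95.FC.Targets
import Pool.Agent.H89.FM.Targets1
import Pool.Agent.H21.FM.LF1

/-!
# FM COMPLETE, row ALF1: the twisted `L`-function in terms of the forms, `Re s > 1`
-/

set_option autoImplicit false

open MeasureTheory Set Filter NumberField
open scoped Real nonZeroDivisors Matrix MatrixGroups

namespace Pool.Agent.H19.FC

open Pool.Agent.H31.CN Pool.Agent.H89.FM Pool.Agent.H61.FM Pool.Agent.H89.FC Pool.Agent.H95.FC

theorem cpow_quot' (k f D : ℕ) (hk : 0 < k) (hf : 0 < f) (hD : 0 < D) (s : ℂ) :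
    (((k : ℝ) / (f * Real.sqrt D) : ℝ) : ℂ) ^ (-s) =
      (k : ℂ) ^ (-s) * ((f : ℂ) ^ 2 * D) ^ (s / 2) := by
  have h1 : (f : ℝ) * Real.sqrt D = Real.sqrt ((f ^ 2 * D : ℕ) : ℝ) := by
    push_cast
    rw [Real.sqrt_mul (by positivity), Real.sqrt_sq (by positivity)]
  rw [h1, Pool.Agent.H21.FM.cpow_quot k (f ^ 2 * D) hk (by positivity) s]
  push_cast
  rfl

open Classical in
theorem pf_LF1c (hSUM : Pool.Agent.H95.FC.T_SUM) (hVAN : Pool.Agent.H95.FC.T_VAN)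
    (hTWN : Pool.Agent.H95.FC.T_TWN) (hTNB : Pool.Agent.H95.FC.T_TNB)
    (hFRM : Pool.Agent.H95.FC.T_FRM) (_hFRA : Pool.Agent.H95.FC.T_FRA)
    (hTWSc : Pool.Agent.H95.FC.T_TWSc) (hLC1 : Pool.Agent.H95.FC.T_LC1)
    (hEZA : Pool.Agent.H95.FC.T_EZAx) (hLIN : T_LIN) (hLSU : T_LSU) (hQZV : Pool.Agent.H61.FM.T_QZV)
    (hFLS : Pool.Agent.H89.FM.T_FLS) (hGEN : Pool.Agent.H89.FM.T_GEN)
    (hCRT : Pool.Agent.H89.FM.T_CRT) : Pool.Agent.H95.FC.T_LF1c := by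
  intro K _ _ D f m hK R b T W ψ F hDF hψ hF n hn s hs
  have hn1 : 1 ≤ n := Nat.one_le_iff_ne_zero.2 hn.ne_zero
  have hn0 : (0 : ℝ) < n := by exact_mod_cast hn1
  have hf : 0 < f := hψ.pos
  have hf0 : (0 : ℝ) < f := by exact_mod_cast hf
  have hD := hK.pos
  have hQ1 : ∀ c, 0 < (R.Q c).1 := fun c => (R.fd c).1
  have hQd : ∀ c, dsc (R.Q c) = (D : ℤ) := fun c => (R.fd c).2
  have hdsc : ∀ c, 0 < dsc (R.Q c) := fun c => by
    rw [hQd c]
    exact_mod_cast hD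
  -- the sum over the sublattices of the line
  have stepA : ∀ c, ∀ V ∈ T c, ψ (b c V) *
      ∑ L ∈ (Ls n).filter (fun L => Dv n L (fl f (R.Q c) V (W c V))),
        Em m s n L (zx (fl f (R.Q c) V (W c V))) (zy (fl f (R.Q c) V (W c V))) =
      rr m ψ (b c) (R.Q c) V * ∑ L ∈ Tn n f (R.Q c) V,
        Em m s (n * f) L (zx (R.Q c)) (zy (R.Q c)) := by
    intro c V hV
    have hdet := (hDF.lt c).one V hV
    have h1 := hTNB n f (R.Q c) V (W c V)
      (fun L => Em m s (n * f) L (zx (R.Q c)) (zy (R.Q c))) hn1 hf hdet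
    have h2 : ∑ L ∈ (Ls n).filter (fun L => Dv n L (fl f (R.Q c) V (W c V))),
        Em m s n L (zx (fl f (R.Q c) V (W c V))) (zy (fl f (R.Q c) V (W c V))) =
        an (zx (R.Q c)) (zy (R.Q c)) V ^ (-m) *
          ∑ L ∈ (Ls n).filter (fun L => Dv n L (fl f (R.Q c) V (W c V))),
            Em m s (n * f) (L.map (io f V (W c V))) (zx (R.Q c)) (zy (R.Q c)) := by
      rw [Finset.mul_sum]
      exact Finset.sum_congr rfl fun L _ =>
        hFRM m s n f (R.Q c) V (W c V) L hn1 hf hdet (hQ1 c) (hdsc c)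
    rw [h2, h1]
    unfold rr
    ring
  have hEE : EE f R b T W m ψ n s = (un K : ℂ)⁻¹ * ∑ c, ∑ V ∈ T c,
      rr m ψ (b c) (R.Q c) V * ∑ L ∈ Tn n f (R.Q c) V,
        Em m s (n * f) L (zx (R.Q c)) (zy (R.Q c)) := by
    unfold EE
    congr 1
    exact Finset.sum_congr rfl fun c _ => Finset.sum_congr rfl fun V hV => stepA c V hV
  rw [hEE]
  by_cases hcop : Nat.Coprime n f
  swap
  · obtain ⟨p, hp, hpn, hpf⟩ := Nat.Prime.not_coprime_iff_dvd.1 hcop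
    have h1 : ∑ c, ∑ V ∈ T c, rr m ψ (b c) (R.Q c) V * ∑ L ∈ Tn n f (R.Q c) V,
        Em m s (n * f) L (zx (R.Q c)) (zy (R.Q c)) = 0 :=
      Finset.sum_eq_zero fun c _ =>
        hVAN K R.σ D f m ψ (R.I c) (R.α c) (R.β c) (R.Q c) (b c) (T c) (W c) hD (R.fd c)
          (R.ob c) (hDF.vb c) (hDF.lt c) hψ n p
          (fun L => Em m s (n * f) L (zx (R.Q c)) (zy (R.Q c))) hp hpn hpf
    rw [h1, mul_zero, (hLC1 K R.σ f m ψ hψ).2.1 n hcop, zero_mul]
  -- the lattices of the ideals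
  have hlat : ∀ (c : ClassGroup (𝓞 K)) (P : (Ideal (𝓞 K))⁰), nm P = n →
      lt K (R.α c) (R.β c) ((P : Ideal (𝓞 K)) * R.I c) ∈ Ls n ∧
      Dv n (lt K (R.α c) (R.β c) ((P : Ideal (𝓞 K)) * R.I c)) (R.Q c) := by
    intro c P hP
    obtain ⟨h1, h2, -⟩ := hLIN K D R.σ hK (R.I c) P (R.α c) (R.β c) (R.Q c) (R.ob c)
    rw [hP] at h1 h2
    exact ⟨((hFLS n _ hn1).1).2 h1, h2⟩
  have hlw : ∀ c, ∀ V ∈ T c, Lw f V ∈ Ls f := by
    intro c V hV
    refine hGEN.1 f V hf ?_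
    have hg : Int.gcd V.1 V.2 = 1 := by
      rw [← Int.isCoprime_iff_gcd_eq_one]
      have hdet := (hDF.lt c).one V hV
      refine ⟨(W c V).2, -(W c V).1, ?_⟩
      unfold det at hdet
      linarith
    rw [hg]
    exact Nat.coprime_one_left f
  have step1 : ∀ c, ∀ V ∈ T c, ∑ L ∈ Tn n f (R.Q c) V,
      Em m s (n * f) L (zx (R.Q c)) (zy (R.Q c)) = ∑ P ∈ Nn K n,
      Em m s (n * f) (lt K (R.α c) (R.β c) ((P : Ideal (𝓞 K)) * R.I c) ⊓ Lw f V)
        (zx (R.Q c)) (zy (R.Q c)) := by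
    intro c V hV
    rw [hTWN n f (R.Q c) V (W c V) _ hn1 hf hcop ((hDF.lt c).one V hV)]
    symm
    refine Finset.sum_bij (fun P _ => lt K (R.α c) (R.β c) ((P : Ideal (𝓞 K)) * R.I c)) ?_ ?_ ?_ ?_
    · intro P hP
      rw [mem_Nn] at hP
      exact Finset.mem_filter.2 (hlat c P hP)
    · intro P _ P' _ he
      obtain ⟨-, -, h3⟩ := hLIN K D R.σ hK (R.I c) P' (R.α c) (R.β c) (R.Q c) (R.ob c)
      exact h3 P he
    · intro L hL
      rw [Finset.mem_filter] at hL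
      obtain ⟨P, hP, hPL⟩ := hLSU K D R.σ hK (R.I c) (R.α c) (R.β c) (R.Q c) (R.ob c) n L hn
        (((hFLS n _ hn1).1).1 hL.1) hL.2
      exact ⟨P, mem_Nn.2 hP, hPL⟩
    · intro P _
      rfl
  set h' : ℝ → ℂ := fun r => ((r / (f * Real.sqrt D) : ℝ) : ℂ) ^ (-s) with hh'
  -- step 2
  have step2 : ∀ (c : ClassGroup (𝓞 K)) (P : (Ideal (𝓞 K))⁰) (V : ℤ × ℤ), ∃ a : ℂ, nm P = n →
      V ∈ T c → HasSum (fun u : ℤ × ℤ =>
        if u ∈ lt K (R.α c) (R.β c) ((P : Ideal (𝓞 K)) * R.I c) ∧ (f : ℤ) ∣ det V u ∧ u ≠ 0 then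
          an (zx (R.Q c)) (zy (R.Q c)) u ^ m * (fun r : ℝ => h' (r / n)) (val (R.Q c) u) else 0) a ∧
      Em m s (n * f) (lt K (R.α c) (R.β c) ((P : Ideal (𝓞 K)) * R.I c) ⊓ Lw f V)
        (zx (R.Q c)) (zy (R.Q c)) = gM m.natAbs s * a := by
    intro c P V
    by_cases hP : nm P = n ∧ V ∈ T c
    · obtain ⟨hP, hV⟩ := hP
      have hy := (hQZV (R.Q c) 0 (hQ1 c) (hdsc c)).1
      have hnf : 1 ≤ n * f := Nat.one_le_iff_ne_zero.2 (by positivity)
      have hidx : (lt K (R.α c) (R.β c) ((P : Ideal (𝓞 K)) * R.I c) ⊓ Lw f V).index = n * f :=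
        ((hFLS (n * f) _ hnf).1).1 ((hCRT n f hn1 hf hcop).1 _ (hlat c P hP).1 _ (hlw c V hV))
      obtain ⟨-, -, h3⟩ := hEZA m (n * f) _ (zx (R.Q c)) (zy (R.Q c)) hnf hidx hy
      obtain ⟨a, ha, haE⟩ := h3 s hs
      refine ⟨a, fun _ _ => ⟨?_, haE⟩⟩
      refine ha.congr_fun ?_
      intro v
      have hiff : (v ∈ lt K (R.α c) (R.β c) ((P : Ideal (𝓞 K)) * R.I c) ⊓ Lw f V ∧ v ≠ 0) ↔
          (v ∈ lt K (R.α c) (R.β c) ((P : Ideal (𝓞 K)) * R.I c) ∧ (f : ℤ) ∣ det V v ∧ v ≠ 0) := by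
        rw [AddSubgroup.mem_inf, and_assoc]
        rfl
      by_cases h5 : v ∈ lt K (R.α c) (R.β c) ((P : Ideal (𝓞 K)) * R.I c) ⊓ Lw f V ∧ v ≠ 0
      · rw [if_pos h5, if_pos (hiff.1 h5), (hQZV (R.Q c) v (hQ1 c) (hdsc c)).2, hQd c]
        congr 1
        rw [hh']
        simp only
        congr 2
        push_cast
        field_simp
      · rw [if_neg h5, if_neg (fun h6 => h5 (hiff.2 h6))]
    · exact ⟨0, fun h1 h2 => absurd ⟨h1, h2⟩ hP⟩
  choose a ha using step2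
  -- the sums over the lines
  set A : ClassGroup (𝓞 K) → (Ideal (𝓞 K))⁰ → ℂ := fun c P =>
    ∑ V ∈ T c, ψ (b c V) * an (zx (R.Q c)) (zy (R.Q c)) V ^ (-m) * a c P V with hA
  have hAs : ∀ (c : ClassGroup (𝓞 K)) (P : (Ideal (𝓞 K))⁰), nm P = n →
      HasSum (fun J : (Ideal (𝓞 K))⁰ => if ClassGroup.mk0 J = (c * ClassGroup.mk0 P)⁻¹ then
        ψ P * ψ J * h' (nm J) else 0) (A c P / un K) := by
    intro c P hP
    have h1 := hSUM K R.σ D f m ψ (R.I c) (R.α c) (R.β c) (R.Q c) (b c) (T c) (W c) hD (R.fd c)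
      (R.ob c) (hDF.vb c) (hDF.lt c) hψ (lt K (R.α c) (R.β c) ((P : Ideal (𝓞 K)) * R.I c))
      (fun r : ℝ => h' (r / n)) (a c P) (fun V hV => (ha c P V hP hV).1)
    have h2 := hTWSc K D R.σ hK (R.I c) P (R.α c) (R.β c) (R.Q c) (b c) ψ (R.ob c) (hDF.vb c)
      hψ.mul h' (A c P) (by rw [hP]; exact h1)
    rw [R.cl c] at h2
    exact h2
  -- step 3
  have step3 : ∀ P ∈ Nn K n, ψ P * (((f : ℂ) ^ 2 * D) ^ (s / 2) * F s) =
      ∑ c, A c P / un K := by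
    intro P hP
    rw [mem_Nn] at hP
    have h1 : HasSum (fun J : (Ideal (𝓞 K))⁰ => ∑ c : ClassGroup (𝓞 K),
        (if ClassGroup.mk0 J = (c * ClassGroup.mk0 P)⁻¹ then ψ P * ψ J * h' (nm J) else 0))
        (∑ c, A c P / un K) := hasSum_sum fun c _ => hAs c P hP
    have h2 := (hF.2 s hs).mul_left (ψ P * ((f : ℂ) ^ 2 * D) ^ (s / 2))
    have h3 : (fun J : (Ideal (𝓞 K))⁰ => ∑ c : ClassGroup (𝓞 K),
        (if ClassGroup.mk0 J = (c * ClassGroup.mk0 P)⁻¹ then ψ P * ψ J * h' (nm J) else 0)) =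
        fun J : (Ideal (𝓞 K))⁰ => ψ P * ((f : ℂ) ^ 2 * D) ^ (s / 2) * (ψ J *
          (Ideal.absNorm (J : Ideal (𝓞 K)) : ℂ) ^ (-s)) := by
      funext J
      have hJ : 0 < nm J := Ideal.absNorm_pos_of_nonZeroDivisors J
      rw [Finset.sum_eq_single ((ClassGroup.mk0 J * ClassGroup.mk0 P)⁻¹)]
      · have e1 : ClassGroup.mk0 J = ((ClassGroup.mk0 J * ClassGroup.mk0 P)⁻¹ *
            ClassGroup.mk0 P)⁻¹ := by
          rw [mul_inv_rev, inv_inv, mul_comm (ClassGroup.mk0 J), inv_mul_cancel_left]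
        rw [if_pos e1, hh']
        simp only
        rw [cpow_quot' _ _ _ hJ hf hD]
        unfold nm
        ring
      · intro c _ hc
        rw [if_neg]
        intro h4
        apply hc
        rw [h4, mul_inv, inv_inv]
        group
      · intro h4
        exact absurd (Finset.mem_univ _) h4
    rw [h3] at h1
    rw [h1.unique h2]
    ring
  have step4 : lc ψ n * (gM m.natAbs s * ((f : ℂ) ^ 2 * D) ^ (s / 2) * F s) =
      ∑ P ∈ Nn K n, gM m.natAbs s * (ψ P * (((f : ℂ) ^ 2 * D) ^ (s / 2) * F s)) := by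
    unfold lc
    rw [Finset.sum_mul]
    exact Finset.sum_congr rfl fun P _ => by ring
  rw [step4, Finset.mul_sum]
  calc ∑ P ∈ Nn K n, gM m.natAbs s * (ψ P * (((f : ℂ) ^ 2 * D) ^ (s / 2) * F s))
      = ∑ P ∈ Nn K n, ∑ c, gM m.natAbs s * (A c P / un K) := by
        refine Finset.sum_congr rfl fun P hP => ?_
        rw [step3 P hP, Finset.mul_sum]
    _ = ∑ c, ∑ P ∈ Nn K n, gM m.natAbs s * (A c P / un K) := Finset.sum_comm
    _ = _ := by
        refine Finset.sum_congr rfl fun c _ => ?_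
        have h1 : ∀ V ∈ T c, rr m ψ (b c) (R.Q c) V * ∑ L ∈ Tn n f (R.Q c) V,
            Em m s (n * f) L (zx (R.Q c)) (zy (R.Q c)) =
            ∑ P ∈ Nn K n, ψ (b c V) * an (zx (R.Q c)) (zy (R.Q c)) V ^ (-m) *
              (gM m.natAbs s * a c P V) := by
          intro V hV
          rw [step1 c V hV, Finset.mul_sum]
          refine Finset.sum_congr rfl fun P hP => ?_
          rw [mem_Nn] at hP
          rw [(ha c P V hP hV).2]
          rfl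
        rw [Finset.sum_congr rfl h1, Finset.sum_comm, Finset.mul_sum]
        refine Finset.sum_congr rfl fun P _ => ?_
        rw [hA]
        simp only
        rw [Finset.sum_div, Finset.mul_sum, Finset.mul_sum]
        refine Finset.sum_congr rfl fun V _ => ?_
        rw [div_eq_mul_inv]
        ring

end Pool.Agent.H19.FC
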