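import Pool.Agent.H95.FC.Targets
import Pool.Agent.H89.FM.Targets1

/-!
# FM COMPLETE, row ATNB: the sublattices of a line
-/

set_option autoImplicit false

open MeasureTheory Set Filter NumberField
open scoped Real nonZeroDivisors Matrix MatrixGroups

namespace Pool.Agent.H19.FC

open Pool.Agent.H31.CN Pool.Agent.H89.FM Pool.Agent.H61.FM Pool.Agent.H89.FC Pool.Agent.H95.FC

theorem gcd_of_det {V W : ℤ × ℤ} (h : det V W = 1) : Int.gcd V.1 V.2 = 1 := by
  rw [← Int.isCoprime_iff_gcd_eq_one]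
  refine ⟨W.2, -W.1, ?_⟩
  unfold det at h
  linarith

theorem pf_TNB (hFLF : Pool.Agent.H95.FC.T_FLF) (hFLS : Pool.Agent.H89.FM.T_FLS)
    (hGEN : Pool.Agent.H89.FM.T_GEN) : Pool.Agent.H95.FC.T_TNB := by
  classical
  intro n f Q V W Φ hn hf hdet
  obtain ⟨h1, -, -, hinj, h5⟩ := hFLF f Q V W hf hdet
  set j : ℤ × ℤ →+ ℤ × ℤ := io f V W with hj
  have hr : j.range = Lw f V := by
    ext u
    exact (h5 u).symm
  have hM : Lw f V ∈ Ls f := hGEN.1 f V hf (by rw [gcd_of_det hdet]; exact Nat.coprime_one_left f)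
  have hMi : (Lw f V).index = f := ((hFLS f _ hf).1).1 hM
  have hk : j.ker = ⊥ := (AddMonoidHom.ker_eq_bot_iff j).2 hinj
  have hidx : ∀ L : AddSubgroup (ℤ × ℤ), (L.map j).index = L.index * f := by
    intro L
    rw [AddSubgroup.index_map, hk, sup_bot_eq, hr, hMi]
  have hnf : 1 ≤ n * f := Nat.one_le_iff_ne_zero.2 (by positivity)
  have hdv : ∀ L : AddSubgroup (ℤ × ℤ), Dv n (L.map j) Q ↔ Dv n L (fl f Q V W) := by
    intro L
    constructor
    · intro h v hv
      rw [h1 v]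
      exact h _ (AddSubgroup.mem_map_of_mem j hv)
    · rintro h v ⟨w, hw, rfl⟩
      have := h w hw
      rw [h1 w] at this
      exact this
  refine Finset.sum_bij (fun L _ => L.map j) ?_ ?_ ?_ ?_
  · intro L hL
    rw [Finset.mem_filter] at hL
    unfold Tn
    rw [Finset.mem_filter]
    refine ⟨((hFLS (n * f) _ hnf).1).2 ?_, ?_, (hdv L).2 hL.2⟩
    · rw [hidx, ((hFLS n L hn).1).1 hL.1]
    · rw [← hr]
      rintro _ ⟨w, _, rfl⟩
      exact ⟨w, rfl⟩
  · intro L _ L' _ he
    exact AddSubgroup.map_injective hinj he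
  · intro L hL
    unfold Tn at hL
    rw [Finset.mem_filter] at hL
    obtain ⟨hL1, hL2, hL3⟩ := hL
    have e : (L.comap j).map j = L := by
      rw [AddSubgroup.map_comap_eq, hr]
      exact inf_eq_right.2 hL2
    refine ⟨L.comap j, ?_, e⟩
    rw [Finset.mem_filter]
    refine ⟨((hFLS n _ hn).1).2 ?_, ?_⟩
    · have h6 := hidx (L.comap j)
      rw [e, ((hFLS (n * f) L hnf).1).1 hL1] at h6
      exact (Nat.eq_of_mul_eq_mul_right hf h6).symm
    · rw [← hdv, e]
      exact hL3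
  · intro L _
    rfl

end Pool.Agent.H19.FC
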