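import Pool.Agent.H95.FC.Targets
import Pool.Agent.H89.FM.Targets1

/-!
# FM COMPLETE, row ATWN: the sublattices of a line, `n` prime to `f`
-/

set_option autoImplicit false

open MeasureTheory Set Filter NumberField
open scoped Real nonZeroDivisors Matrix MatrixGroups

namespace Pool.Agent.H19.FC

open Pool.Agent.H31.CN Pool.Agent.H89.FM Pool.Agent.H61.FM Pool.Agent.H89.FC Pool.Agent.H95.FC

theorem pf_TWN (hFLS : Pool.Agent.H89.FM.T_FLS) (hGEN : Pool.Agent.H89.FM.T_GEN)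
    (hCRT : Pool.Agent.H89.FM.T_CRT) : Pool.Agent.H95.FC.T_TWN := by
  classical
  intro n f Q V W Φ hn hf hcop hdet
  have hg : Int.gcd V.1 V.2 = 1 := by
    rw [← Int.isCoprime_iff_gcd_eq_one]
    refine ⟨W.2, -W.1, ?_⟩
    unfold det at hdet
    linarith
  have hM : Lw f V ∈ Ls f := hGEN.1 f V hf (by rw [hg]; exact Nat.coprime_one_left f)
  have hMi : (Lw f V).index = f := ((hFLS f _ hf).1).1 hM
  obtain ⟨c1, c2, c3⟩ := hCRT n f hn hf hcop
  have hzc : IsCoprime (n : ℤ) (f : ℤ) := Nat.isCoprime_iff_coprime.2 hcop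
  symm
  refine Finset.sum_bij (fun L _ => L ⊓ Lw f V) ?_ ?_ ?_ ?_
  · intro L hL
    rw [Finset.mem_filter] at hL
    unfold Tn
    rw [Finset.mem_filter]
    exact ⟨c1 L hL.1 _ hM, inf_le_right, fun v hv => hL.2 v (AddSubgroup.mem_inf.1 hv).1⟩
  · intro L hL L' hL' he
    rw [Finset.mem_filter] at hL hL'
    exact (c3 L hL.1 _ hM L' hL'.1 _ hM he).1
  · intro L hL
    unfold Tn at hL
    rw [Finset.mem_filter] at hL
    obtain ⟨hL1, hL2, hL3⟩ := hL
    obtain ⟨L₁, hL₁, L₂, hL₂, e⟩ := c2 L hL1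
    have n1 := (hFLS n L₁ hn).2 hL₁
    have n2 := (hFLS f L₂ hf).2 hL₂
    have hle : L₂ ≤ Lw f V := by
      intro v hv
      have h1 : (n : ℤ) • v ∈ L := by
        rw [e]
        exact ⟨n1 v, L₂.zsmul_mem hv n⟩
      have h2 : (f : ℤ) ∣ det V ((n : ℤ) • v) := hL2 h1
      have h3 : det V ((n : ℤ) • v) = n * det V v := by
        simp only [det, Prod.smul_fst, Prod.smul_snd, smul_eq_mul]
        ring
      rw [h3] at h2
      exact hzc.symm.dvd_of_dvd_mul_left h2
    have hi2 : L₂.index = f := ((hFLS f _ hf).1).1 hL₂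
    have hge : Lw f V ≤ L₂ := by
      have h1 := AddSubgroup.relIndex_mul_index hle
      rw [hMi, hi2] at h1
      exact AddSubgroup.relIndex_eq_one.1 (Nat.eq_of_mul_eq_mul_right hf (by rw [h1, one_mul]))
    have heq : L₂ = Lw f V := le_antisymm hle hge
    refine ⟨L₁, ?_, ?_⟩
    · rw [Finset.mem_filter]
      refine ⟨hL₁, fun v hv => ?_⟩
      have h1 : (f : ℤ) • v ∈ L := by
        rw [e]
        exact ⟨L₁.zsmul_mem hv f, n2 v⟩
      have h2 := hL3 _ h1
      have h3 : val Q ((f : ℤ) • v) = (f : ℤ) * ((f : ℤ) * val Q v) := by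
        simp only [val, Prod.smul_fst, Prod.smul_snd, smul_eq_mul]
        ring
      rw [h3] at h2
      exact hzc.dvd_of_dvd_mul_left (hzc.dvd_of_dvd_mul_left h2)
    · rw [e, heq]
  · intro L _
    rfl

end Pool.Agent.H19.FC
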