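import Pool.Agent.H95.FC.Targets
import Pool.Agent.H16.FM.TWS
import Pool.Agent.H60.FM.VIG

/-!
# FM COMPLETE, row ATWS: sums over the vectors of a product of ideals, with characters
-/

set_option autoImplicit false

open MeasureTheory Set Filter NumberField
open scoped Real nonZeroDivisors

namespace Pool.Agent.H19.FC

open Pool.Agent.H31.CN Pool.Agent.H89.FM Pool.Agent.H61.FM Pool.Agent.H89.FC Pool.Agent.H95.FC
  Pool.Agent.H16.FM

theorem pf_TWSc : Pool.Agent.H95.FC.T_TWSc := by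
  classical
  intro K _ _ D σ hIQ I P α β Q b ψ hOB hVB hψ f a h
  obtain ⟨hun, -⟩ := Pool.Agent.H60.FM.pf_VIG K D σ hIQ I α β Q hOB
  have hb1 := hVB.spn
  have hb2 : ∀ v, v ≠ 0 → ClassGroup.mk0 (b v) = (ClassGroup.mk0 I)⁻¹ ∧
      (nm (b v) : ℤ) = val Q v := fun v hv => ⟨hVB.cls v hv, hVB.nrm v hv⟩
  have hb3 := hVB.sur
  have hb4 := hVB.fib
  set A : Set (ℤ × ℤ) := {v | v ∈ lt K α β ((P : Ideal (𝓞 K)) * I) ∧ v ≠ 0} with hA
  set B : Set (Ideal (𝓞 K))⁰ :=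
    {J | ClassGroup.mk0 J = (ClassGroup.mk0 I * ClassGroup.mk0 P)⁻¹} with hB
  have hI0 : (I : Ideal (𝓞 K)) ≠ 0 := nonZeroDivisors.coe_ne_zero I
  have hP0 : (P : Ideal (𝓞 K)) ≠ 0 := nonZeroDivisors.coe_ne_zero P
  -- membership
  have hmem : ∀ v : ℤ × ℤ, v ≠ 0 → (v ∈ lt K α β ((P : Ideal (𝓞 K)) * I) ↔
      (P : Ideal (𝓞 K)) ∣ (b v : Ideal (𝓞 K))) := by
    intro v hv
    have h1 : v ∈ lt K α β ((P : Ideal (𝓞 K)) * I) ↔
        (v.1 : 𝓞 K) * α + (v.2 : 𝓞 K) * β ∈ (P : Ideal (𝓞 K)) * I := Iff.rfl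
    rw [h1, ← Ideal.dvd_span_singleton, hb1 v hv, mul_dvd_mul_iff_right hI0]
  have hex : ∀ v : ℤ × ℤ, ∃ J : (Ideal (𝓞 K))⁰, v ∈ A → b v = P * J := by
    intro v
    by_cases hv : v ∈ A
    · obtain ⟨J, hJ⟩ := (hmem v hv.2).mp hv.1
      have hJ0 : J ≠ 0 := by
        rintro rfl
        rw [mul_zero] at hJ
        exact nonZeroDivisors.coe_ne_zero (b v) hJ
      refine ⟨⟨J, mem_nonZeroDivisors_of_ne_zero hJ0⟩, fun _ => Subtype.ext hJ⟩
    · exact ⟨1, fun h => absurd h hv⟩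
  choose j hj using hex
  have hcl : ∀ J : (Ideal (𝓞 K))⁰, J ∈ B ↔ ClassGroup.mk0 (P * J) = (ClassGroup.mk0 I)⁻¹ := by
    intro J
    rw [hB, Set.mem_ofPred_eq, map_mul, mul_inv, ← eq_inv_mul_iff_mul_eq, mul_comm]
  have hjB : ∀ v ∈ A, j v ∈ B := by
    intro v hv
    rw [hcl, ← hj v hv]
    exact (hb2 v hv.2).1
  have hfib : ∀ J ∈ B, {v | v ∈ A ∧ j v = J}.ncard = un K := by
    intro J hJ
    obtain ⟨v, hv, hbv⟩ := hb3 (P * J) ((hcl J).mp hJ)
    rw [← hb4 v hv]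
    congr 1
    ext v'
    constructor
    · rintro ⟨hv', hjv'⟩
      refine ⟨hv'.2, ?_⟩
      rw [hj v' hv', hjv', hbv]
    · rintro ⟨hv', hbv'⟩
      have h2 : b v' = P * J := hbv'.trans hbv
      have h3 : v' ∈ A := by
        refine ⟨(hmem v' hv').mpr ?_, hv'⟩
        rw [h2]
        exact ⟨J, rfl⟩
      refine ⟨h3, ?_⟩
      have h4 := (hj v' h3).symm.trans h2
      have h5 : (P : Ideal (𝓞 K)) * (j v' : Ideal (𝓞 K)) = P * (J : Ideal (𝓞 K)) :=
        congrArg Subtype.val h4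
      exact Subtype.ext (mul_left_cancel₀ hP0 h5)
  have hnm : ∀ J J' : (Ideal (𝓞 K))⁰, nm (J * J') = nm J * nm J' := by
    intro J J'
    unfold nm
    rw [Submonoid.coe_mul, map_mul]
  have hnP : 0 < nm P := by
    unfold nm
    rw [Nat.pos_iff_ne_zero, Ne, Ideal.absNorm_eq_zero_iff]
    exact hP0
  have hgf : ∀ v ∈ A, (fun v : ℤ × ℤ => ψ (b v) * f ((val Q v : ℝ) / nm P)) v =
      (fun J : (Ideal (𝓞 K))⁰ => ψ P * ψ J * f (nm J)) (j v) := by
    intro v hv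
    change ψ (b v) * f ((val Q v : ℝ) / nm P) = ψ P * ψ (j v) * f (nm (j v))
    have h0 : ψ (b v) = ψ P * ψ (j v) := by
      rw [← hψ]
      exact congrArg ψ (congrArg Subtype.val (hj v hv))
    rw [h0]
    congr 2
    have h2 := (hb2 v hv.2).2
    rw [hj v hv, hnm] at h2
    have h3 : (val Q v : ℝ) = (nm P : ℝ) * nm (j v) := by
      rw [← h2]
      push_cast
      ring
    rw [h3, mul_comm, mul_div_assoc, div_self (Nat.cast_ne_zero.mpr hnP.ne'), mul_one]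
  have hfin := hasSum_fib A B j (un K) hun hjB hfib
    (fun v => ψ (b v) * f ((val Q v : ℝ) / nm P))
    (fun J => ψ P * ψ J * f (nm J)) hgf a (h.congr_fun (by
      intro v
      by_cases hv : v ∈ A
      · rw [if_pos hv]
        exact (if_pos hv).symm
      · rw [if_neg hv]
        exact (if_neg hv).symm))
  refine hfin.congr_fun ?_
  intro J
  by_cases hJ : J ∈ B
  · rw [if_pos hJ]
    exact (if_pos hJ)
  · rw [if_neg hJ]
    exact (if_neg hJ)

end Pool.Agent.H19.FC
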