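import Pool.Agent.H6.FC.Lem
import Pool.Agent.H63.FI.BRG

/-!
Row EXI of the board cfp_modules (MP_7500ea_al).
-/

set_option autoImplicit false

open scoped Classical ComplexConjugate

namespace Pool.Agent.H19.FC

open FI AMc AMt

/-- the centre of a simple group which is not abelian is trivial -/
lemma conj_inj {S : Type} [Group S] (hS : NAS S) :
    Function.Injective (MulAut.conj : S →* MulAut S) := by
  have hs := hS.sim
  rw [← MonoidHom.ker_eq_bot_iff]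
  rcases (MonoidHom.normal_ker (MulAut.conj : S →* MulAut S)).eq_bot_or_eq_top with h | h
  · exact h
  exfalso
  obtain ⟨a, b, hab⟩ := hS.nab
  apply hab
  have ha : a ∈ (MulAut.conj : S →* MulAut S).ker := by
    rw [h]
    exact Subgroup.mem_top a
  have h1 := congrArg (fun f : MulAut S => f b) (MonoidHom.mem_ker.1 ha)
  have h2 : a * b * a⁻¹ = b := h1
  rwa [mul_inv_eq_iff_eq_mul] at h2

lemma conj_conj_eq {S : Type} [Group S] (α : MulAut S) (s : S) :
    α * MulAut.conj s * α⁻¹ = MulAut.conj (α s) := by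
  ext x
  have e1 : (α * MulAut.conj s * α⁻¹) x = α (s * α⁻¹ x * s⁻¹) := rfl
  have e2 : α (α⁻¹ x) = x := MulAut.apply_inv_self S α x
  rw [e1, map_mul, map_mul, map_inv, e2, MulAut.conj_apply]

/-- Row EXI. -/
theorem pf_EXI : T_EXI := by
  intro S _ _ hS α0 hα ε hε hinv
  refine ⟨hε, ?_⟩
  have : Fintype S := Fintype.ofFinite S
  have : Fintype (MulAut S) := Fintype.ofFinite _
  have hj := conj_inj hS
  obtain ⟨k1, k2, -, -⟩ := FI.Lib.lK1 S (MulAut S) MulAut.conj hj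
  set K : Subgroup (MulAut S) := (MulAut.conj : S →* MulAut S).range with hK
  have hKn : K.Normal := by
    refine ⟨?_⟩
    rintro _ ⟨s, rfl⟩ α
    exact ⟨α s, (conj_conj_eq α s).symm⟩
  set θ : MulAut S → ℂ := extj MulAut.conj ε with hθd
  have hθ : θ ∈ IrrS K := (k2 ε).1 hε
  obtain ⟨χ, hχ, hO⟩ := FI.Lib.lE4 (MulAut S) K ⊤ le_top θ hθ
  obtain ⟨hsup, -⟩ := FI.Lib.lS1 (MulAut S) K θ hθ
  have hcyc : ∀ h ∈ (⊤ : Subgroup (MulAut S)), ∃ c : ℕ, ∃ k ∈ K, h = α0 ^ c * k := by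
    intro h _
    rcases hα h with h1 | h1
    · exact ⟨0, h, h1, by rw [pow_zero, one_mul]⟩
    · refine ⟨1, α0⁻¹ * (h * α0⁻¹) * α0⁻¹⁻¹, hKn.conj_mem _ h1 α0⁻¹, ?_⟩
      rw [pow_one]
      group
  have hcj : cj α0 θ = θ := by
    funext g
    change θ (α0 * g * α0⁻¹) = θ g
    by_cases hg : g ∈ K
    · obtain ⟨s, rfl⟩ := hg
      rw [conj_conj_eq, hθd, k1, k1, hinv]
    · rw [hsup g hg, hsup]
      intro h2
      apply hg
      have h3 := hKn.conj_mem _ h2 α0⁻¹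
      have h4 : α0⁻¹ * (α0 * g * α0⁻¹) * α0⁻¹⁻¹ = g := by group
      rwa [h4] at h3
  have hres := FI.Lib.lCX (MulAut S) K ⊤ (nin_of_normal hKn) α0 (Subgroup.mem_top _) hcyc θ hθ hcj
    χ hχ hO
  refine ⟨χ, (Pool.Agent.H63.FI.irr_top χ).1 hχ, fun s => ?_⟩
  rw [hres _ ⟨s, rfl⟩, hθd, k1]

end Pool.Agent.H19.FC
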