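import Pool.Agent.H23.FC.Targets

/-!
# FM COMPLETE, row KKD: the kernel of weight `2 m` is holomorphic
-/

set_option autoImplicit false

open MeasureTheory Set Filter
open scoped Real Topology

namespace Pool.Agent.H19.FC

open Pool.Agent.H31.CN Pool.Agent.H89.FM Pool.Agent.H89.FC Pool.Agent.H23.FC

/-- the derivative of the test function -/
noncomputable def pd (m : ℕ) (w : ℂ) : ℂ :=
  ((8 * (π : ℂ) ^ 2 * w - 4 * π * (m + 1)) * w ^ m +
    (((m : ℂ) - 2 * π * w) ^ 2 + m - 4 * π * w) * ((m : ℂ) * w ^ (m - 1)) -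
    (((m : ℂ) - 2 * π * w) ^ 2 + m - 4 * π * w) * w ^ m * (2 * π)) *
    Complex.exp (-(2 * π * w))

theorem phm_deriv (m : ℕ) (w : ℂ) : HasDerivAt (phm m) (pd m w) w := by
  have h0 : HasDerivAt (fun w : ℂ => (m : ℂ) - 2 * π * w) (-(2 * π)) w := by
    refine (((hasDerivAt_id w).const_mul (2 * (π : ℂ))).const_sub (m : ℂ)).congr_deriv ?_
    simp
  have h1 : HasDerivAt (fun w : ℂ => ((m : ℂ) - 2 * π * w) ^ 2 + m - 4 * π * w)
      (8 * (π : ℂ) ^ 2 * w - 4 * π * (m + 1)) w := by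
    have h2 := ((h0.pow 2).add_const (m : ℂ)).sub ((hasDerivAt_id w).const_mul (4 * (π : ℂ)))
    refine h2.congr_deriv ?_
    simp
    ring
  have h3 : HasDerivAt (fun w : ℂ => w ^ m) ((m : ℂ) * w ^ (m - 1)) w := hasDerivAt_pow m w
  have h5 : HasDerivAt (fun w : ℂ => Complex.exp (-(2 * π * w)))
      (Complex.exp (-(2 * π * w)) * (-(2 * π))) w := by
    have h4 : HasDerivAt (fun w : ℂ => -(2 * (π : ℂ) * w)) (-(2 * π)) w := by
      refine (((hasDerivAt_id w).const_mul (2 * (π : ℂ))).neg).congr_deriv ?_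
      simp
    exact h4.cexp
  refine ((h1.mul h3).mul h5).congr_deriv ?_
  unfold pd
  simp only [Pi.mul_apply]
  ring

/-- the constant in the bound of the derivative -/
noncomputable def Am (m : ℕ) : ℝ :=
  (8 * π ^ 2 + 4 * π * (m + 1)) + (((m : ℝ) + 2 * π) ^ 2 + m + 4 * π) * m +
    (((m : ℝ) + 2 * π) ^ 2 + m + 4 * π) * (2 * π)

theorem Am_nonneg (m : ℕ) : 0 ≤ Am m := by
  have := Real.pi_pos
  unfold Am
  positivity

theorem pd_le (m : ℕ) (w : ℂ) (X : ℝ) (hX : 1 ≤ X) (hw : ‖w‖ ≤ X) :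
    ‖pd m w‖ ≤ Am m * X ^ (m + 2) * Real.exp (-(2 * π * w.re)) := by
  have hp := Real.pi_pos
  have hX0 : 0 ≤ X := by linarith
  unfold pd
  rw [norm_mul, Complex.norm_exp]
  have h1 : (-(2 * (π : ℂ) * w)).re = -(2 * π * w.re) := by
    simp
  rw [h1]
  refine mul_le_mul_of_nonneg_right ?_ (Real.exp_pos _).le
  have n2 : ‖(2 * (π : ℂ))‖ = 2 * π := by
    rw [norm_mul, Complex.norm_real, Real.norm_of_nonneg hp.le]; simp
  have n4 : ‖(4 * (π : ℂ))‖ = 4 * π := by
    rw [norm_mul, Complex.norm_real, Real.norm_of_nonneg hp.le]; simp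
  have nm : ‖(m : ℂ)‖ = m := by simp
  -- the quadratic factor
  have hq : ‖((m : ℂ) - 2 * π * w) ^ 2 + m - 4 * π * w‖ ≤
      (((m : ℝ) + 2 * π) ^ 2 + m + 4 * π) * X ^ 2 := by
    have a1 : ‖(m : ℂ) - 2 * π * w‖ ≤ ((m : ℝ) + 2 * π) * X := by
      refine (norm_sub_le _ _).trans ?_
      rw [norm_mul, n2, nm]
      have := mul_le_mul_of_nonneg_left hw (by positivity : (0 : ℝ) ≤ 2 * π)
      have : (m : ℝ) ≤ m * X := le_mul_of_one_le_right (Nat.cast_nonneg m) hX
      linarith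
    have a2 : ‖((m : ℂ) - 2 * π * w) ^ 2‖ ≤ (((m : ℝ) + 2 * π) * X) ^ 2 := by
      rw [norm_pow]
      exact pow_le_pow_left₀ (norm_nonneg _) a1 2
    have hX2 : X ≤ X ^ 2 := by nlinarith
    have hX3 : 1 ≤ X ^ 2 := by nlinarith
    have a3 : ‖(4 * (π : ℂ)) * w‖ ≤ 4 * π * X ^ 2 := by
      rw [norm_mul, n4]
      exact mul_le_mul_of_nonneg_left (hw.trans hX2) (by positivity)
    have a4 : ‖(m : ℂ)‖ ≤ m * X ^ 2 := by
      rw [nm]; exact le_mul_of_one_le_right (Nat.cast_nonneg m) hX3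
    calc ‖((m : ℂ) - 2 * π * w) ^ 2 + m - 4 * π * w‖ ≤
          ‖((m : ℂ) - 2 * π * w) ^ 2 + m‖ + ‖(4 * (π : ℂ)) * w‖ := norm_sub_le _ _
      _ ≤ ‖((m : ℂ) - 2 * π * w) ^ 2‖ + ‖(m : ℂ)‖ + ‖(4 * (π : ℂ)) * w‖ :=
          add_le_add (norm_add_le _ _) le_rfl
      _ ≤ (((m : ℝ) + 2 * π) * X) ^ 2 + m * X ^ 2 + 4 * π * X ^ 2 := by linarith
      _ = _ := by ring
  have hq' : ‖8 * (π : ℂ) ^ 2 * w - 4 * π * (m + 1)‖ ≤
      (8 * π ^ 2 + 4 * π * (m + 1)) * X := by
    have b1 : ‖8 * (π : ℂ) ^ 2 * w‖ ≤ 8 * π ^ 2 * X := by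
      have : ‖8 * (π : ℂ) ^ 2‖ = 8 * π ^ 2 := by
        rw [norm_mul, norm_pow, Complex.norm_real, Real.norm_of_nonneg hp.le]; simp
      rw [norm_mul, this]
      exact mul_le_mul_of_nonneg_left hw (by positivity)
    have b2 : ‖4 * (π : ℂ) * (m + 1)‖ ≤ 4 * π * (m + 1) * X := by
      have : ‖((m : ℂ) + 1)‖ = m + 1 := by
        have e : ((m : ℂ) + 1) = ((m + 1 : ℕ) : ℂ) := by push_cast; ring
        rw [e, Complex.norm_natCast]; push_cast; ring
      rw [norm_mul, n4, this]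
      exact le_mul_of_one_le_right (by positivity) hX
    refine (norm_sub_le _ _).trans ?_
    linarith
  have hwm : ‖w ^ m‖ ≤ X ^ m := by
    rw [norm_pow]; exact pow_le_pow_left₀ (norm_nonneg _) hw m
  have hwm1 : ‖(m : ℂ) * w ^ (m - 1)‖ ≤ m * X ^ m := by
    rw [norm_mul, nm, norm_pow]
    refine mul_le_mul_of_nonneg_left ?_ (Nat.cast_nonneg m)
    exact (pow_le_pow_left₀ (norm_nonneg _) hw _).trans (pow_le_pow_right₀ hX (Nat.sub_le m 1))
  set q := ((m : ℂ) - 2 * π * w) ^ 2 + m - 4 * π * w with hqd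
  set a := ((m : ℝ) + 2 * π) ^ 2 + m + 4 * π with had
  have ha : 0 ≤ a := by positivity
  have t1 : ‖(8 * (π : ℂ) ^ 2 * w - 4 * π * (m + 1)) * w ^ m‖ ≤
      (8 * π ^ 2 + 4 * π * (m + 1)) * X ^ (m + 2) := by
    rw [norm_mul]
    calc ‖8 * (π : ℂ) ^ 2 * w - 4 * π * (m + 1)‖ * ‖w ^ m‖
        ≤ (8 * π ^ 2 + 4 * π * (m + 1)) * X * X ^ m :=
          mul_le_mul hq' hwm (norm_nonneg _) (by positivity)
      _ = (8 * π ^ 2 + 4 * π * (m + 1)) * X ^ (m + 1) := by ring
      _ ≤ _ := mul_le_mul_of_nonneg_left (pow_le_pow_right₀ hX (by omega)) (by positivity)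
  have t2 : ‖q * ((m : ℂ) * w ^ (m - 1))‖ ≤ a * m * X ^ (m + 2) := by
    rw [norm_mul]
    calc ‖q‖ * ‖(m : ℂ) * w ^ (m - 1)‖ ≤ a * X ^ 2 * (m * X ^ m) :=
          mul_le_mul hq hwm1 (norm_nonneg _) (by positivity)
      _ = _ := by ring
  have t3 : ‖q * w ^ m * (2 * π)‖ ≤ a * (2 * π) * X ^ (m + 2) := by
    rw [norm_mul, norm_mul, n2]
    calc ‖q‖ * ‖w ^ m‖ * (2 * π) ≤ a * X ^ 2 * X ^ m * (2 * π) :=
          mul_le_mul_of_nonneg_right (mul_le_mul hq hwm (norm_nonneg _) (by positivity))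
            (by positivity)
      _ = _ := by ring
  refine (norm_sub_le _ _).trans ((add_le_add (norm_add_le _ _) le_rfl).trans ?_)
  refine (add_le_add (add_le_add t1 t2) t3).trans (le_of_eq ?_)
  unfold Am
  rw [← had]
  ring

/-- the derivative of one term -/
theorem dtermm (m : ℕ) (z w r : ℂ) (u : ℝ) :
    HasDerivAt (fun r => phm m (z * u * r) * (z * u) ^ w)
      (pd m (z * u * r) * (z * u) * (z * u) ^ w) r := by
  have h1 : HasDerivAt (fun r : ℂ => z * u * r) (z * u) r := by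
    refine ((hasDerivAt_id r).const_mul (z * u)).congr_deriv ?_
    simp
  have h2 : HasDerivAt (fun r : ℂ => phm m (z * u * r)) (pd m (z * u * r) * (z * u)) r :=
    (phm_deriv m (z * u * r)).comp r h1
  exact h2.mul_const _

theorem dtermm_le (m : ℕ) (z w r : ℂ) (u c R : ℝ) (hz : ‖z‖ = 1) (hu : 1 < u)
    (hcz : c < (z * r).re) (hR : ‖r‖ < R) (hR1 : 1 ≤ R) (hw : w.re ≤ 1) :
    ‖pd m (z * u * r) * (z * u) * (z * u) ^ w‖ ≤
      Am m * R ^ (m + 2) * Real.exp (π * |w.im|) *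
        (u ^ (m + 4) * Real.exp (-(2 * π * c * u))) := by
  have hu0 : 0 < u := by linarith
  have hp := Real.pi_pos
  have hAm := Am_nonneg m
  have hzu : ‖z * u‖ = u := by
    rw [norm_mul, hz, one_mul, Complex.norm_real, Real.norm_of_nonneg hu0.le]
  have hn : ‖z * u * r‖ ≤ u * R := by
    rw [norm_mul, hzu]
    exact mul_le_mul_of_nonneg_left hR.le hu0.le
  have huR : 1 ≤ u * R := by nlinarith
  have h1 : ‖pd m (z * u * r)‖ ≤ Am m * (u * R) ^ (m + 2) *
      Real.exp (-(2 * π * c * u)) := by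
    refine (pd_le m _ _ huR hn).trans ?_
    refine mul_le_mul_of_nonneg_left ?_ (by positivity)
    apply Real.exp_le_exp.2
    have h2 : (z * u * r).re = u * (z * r).re := by
      have : z * u * r = (u : ℂ) * (z * r) := by ring
      rw [this, Complex.re_ofReal_mul]
    rw [h2]
    have h3 : u * c ≤ u * (z * r).re := mul_le_mul_of_nonneg_left hcz.le hu0.le
    have h4 : 2 * π * (u * c) ≤ 2 * π * (u * (z * r).re) :=
      mul_le_mul_of_nonneg_left h3 (by positivity)
    have h5 : 2 * π * c * u = 2 * π * (u * c) := by ring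
    rw [h5]
    linarith
  have h8 : ‖(z * u) ^ w‖ ≤ u * Real.exp (π * |w.im|) := by
    refine (Complex.norm_cpow_le _ _).trans ?_
    rw [hzu, div_eq_mul_inv, ← Real.exp_neg]
    refine mul_le_mul ?_ ?_ (Real.exp_pos _).le hu0.le
    · calc u ^ w.re ≤ u ^ (1 : ℝ) := Real.rpow_le_rpow_of_exponent_le hu.le hw
        _ = u := Real.rpow_one _
    · apply Real.exp_le_exp.2
      calc -((z * u).arg * w.im) ≤ |(z * u).arg * w.im| := neg_le_abs _
        _ = |(z * u).arg| * |w.im| := abs_mul _ _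
        _ ≤ π * |w.im| := mul_le_mul_of_nonneg_right (Complex.abs_arg_le_pi _) (abs_nonneg _)
  rw [norm_mul, norm_mul, hzu]
  calc ‖pd m (z * u * r)‖ * u * ‖(z * u) ^ w‖ ≤
        (Am m * (u * R) ^ (m + 2) * Real.exp (-(2 * π * c * u))) * u *
          (u * Real.exp (π * |w.im|)) :=
        mul_le_mul (mul_le_mul_of_nonneg_right h1 hu0.le) h8 (norm_nonneg _) (by positivity)
    _ = _ := by ring

theorem pow_exp (k : ℕ) (b u : ℝ) (hb : 0 < b) (hu : 0 < u) :
    u ^ k * Real.exp (-(2 * b * u)) ≤ (k.factorial : ℝ) / b ^ k * Real.exp (-(b * u)) := by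
  have h1 := Real.pow_div_factorial_le_exp (b * u) (by positivity) k
  rw [mul_pow] at h1
  have hf : (0 : ℝ) < (k.factorial : ℝ) := by exact_mod_cast Nat.factorial_pos k
  have h3 : u ^ k ≤ (k.factorial : ℝ) / b ^ k * Real.exp (b * u) := by
    have h4 : u ^ k = (k.factorial : ℝ) / b ^ k * (b ^ k * u ^ k / k.factorial) := by
      field_simp
    rw [h4]
    exact mul_le_mul_of_nonneg_left h1 (by positivity)
  calc u ^ k * Real.exp (-(2 * b * u)) ≤
        (k.factorial : ℝ) / b ^ k * Real.exp (b * u) * Real.exp (-(2 * b * u)) :=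
        mul_le_mul_of_nonneg_right h3 (Real.exp_pos _).le
    _ = (k.factorial : ℝ) / b ^ k * (Real.exp (b * u) * Real.exp (-(2 * b * u))) := by ring
    _ = _ := by
        rw [← Real.exp_add]
        congr 2
        ring

/-- the derivative of the integrand -/
noncomputable def Kdm (m : ℕ) (τ s r : ℂ) (u : ℝ) : ℂ :=
  (pd m (τ * u * r) * (τ * u) * (τ * u) ^ s + pd m (τ⁻¹ * u * r) * (τ⁻¹ * u) *
    (τ⁻¹ * u) ^ (1 - s)) / u

theorem kdm_meas (m : ℕ) (τ s r : ℂ) : Measurable (Kdm m τ s r) := by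
  unfold Kdm pd
  fun_prop

theorem kmi_meas (m : ℕ) (τ s r : ℂ) : Measurable (Kmi m τ s r) := by
  unfold Kmi phm
  fun_prop

/-- the real part after the rotation -/
theorem rot_pos (m : ℕ) (t φ : ℝ) (r : ℂ) (hφ : φ = Real.arctan (t / (m + 1)) ∨
    φ = -Real.arctan (t / (m + 1))) (hr : 0 < r.re) (hi : 10 * (1 + |t| + m) * |r.im| ≤ r.re) :
    0 < (Complex.exp ((φ : ℂ) * Complex.I) * r).re := by
  have e1 : (Complex.exp ((φ : ℂ) * Complex.I) * r).re = Real.cos φ * r.re - Real.sin φ * r.im := by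
    rw [Complex.mul_re, Complex.exp_ofReal_mul_I_re, Complex.exp_ofReal_mul_I_im]
  have hm : (0 : ℝ) ≤ m := Nat.cast_nonneg m
  have hc : 0 < Real.cos (Real.arctan (t / (m + 1))) := Real.cos_arctan_pos _
  have hs : Real.sin (Real.arctan (t / (m + 1))) =
      t / (m + 1) * Real.cos (Real.arctan (t / (m + 1))) := by
    rw [Real.sin_arctan, Real.cos_arctan]; ring
  have hx : |t / (m + 1) * r.im| < r.re := by
    rw [abs_mul, abs_div, abs_of_pos (by positivity : (0 : ℝ) < m + 1)]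
    have h1 : |t| / (m + 1) ≤ |t| := div_le_self (abs_nonneg _) (by linarith)
    have h2 : |t| / (m + 1) * |r.im| ≤ |t| * |r.im| :=
      mul_le_mul_of_nonneg_right h1 (abs_nonneg _)
    have h3 : |t| * |r.im| ≤ (1 + |t| + m) * |r.im| :=
      mul_le_mul_of_nonneg_right (by linarith) (abs_nonneg _)
    have h4 : 0 ≤ (1 + |t| + m) * |r.im| := by positivity
    nlinarith
  obtain ⟨hx1, hx2⟩ := abs_lt.1 hx
  rw [e1]
  rcases hφ with h | h
  · rw [h, hs]
    have : 0 < Real.cos (Real.arctan (t / (m + 1))) * (r.re - t / (m + 1) * r.im) :=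
      mul_pos hc (by linarith)
    linarith
  · rw [h, Real.cos_neg, Real.sin_neg, hs]
    have : 0 < Real.cos (Real.arctan (t / (m + 1))) * (r.re + t / (m + 1) * r.im) :=
      mul_pos hc (by linarith)
    linarith

theorem pf_KCDm (hKCB : T_KCBm) : T_KCDm := by
  obtain ⟨C, k, _, hK⟩ := hKCB
  intro m s r hs hr hi
  have e1 : tum m s.im = Complex.exp (((Real.arctan (s.im / (m + 1)) : ℝ) : ℂ) * Complex.I) := rfl
  have e2 : (tum m s.im)⁻¹ =
      Complex.exp (((-Real.arctan (s.im / (m + 1)) : ℝ) : ℂ) * Complex.I) := by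
    rw [e1, ← Complex.exp_neg]
    congr 1
    push_cast
    ring
  have hn1 : ‖tum m s.im‖ = 1 := by rw [e1, Complex.norm_exp_ofReal_mul_I]
  have hn2 : ‖(tum m s.im)⁻¹‖ = 1 := by rw [norm_inv, hn1, inv_one]
  have p1 : 0 < (tum m s.im * r).re := by
    rw [e1]; exact rot_pos m s.im _ r (Or.inl rfl) hr hi
  have p2 : 0 < ((tum m s.im)⁻¹ * r).re := by
    rw [e2]; exact rot_pos m s.im _ r (Or.inr rfl) hr hi
  set c : ℝ := min (tum m s.im * r).re ((tum m s.im)⁻¹ * r).re / 2 with hc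
  have hc0 : 0 < c := by
    have := lt_min p1 p2
    rw [hc]; linarith
  have hc1 : c < (tum m s.im * r).re := by
    have h1 := lt_min p1 p2
    have h2 := min_le_left (tum m s.im * r).re ((tum m s.im)⁻¹ * r).re
    rw [hc]; linarith
  have hc2 : c < ((tum m s.im)⁻¹ * r).re := by
    have h1 := lt_min p1 p2
    have h2 := min_le_right (tum m s.im * r).re ((tum m s.im)⁻¹ * r).re
    rw [hc]; linarith
  set R : ℝ := ‖r‖ + 1 with hR
  have hR1 : 1 ≤ R := by have := norm_nonneg r; linarith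
  have hs' := abs_le.1 hs
  have hS : {r' : ℂ | c < (tum m s.im * r').re ∧ c < ((tum m s.im)⁻¹ * r').re ∧ ‖r'‖ < R} ∈
      nhds r := by
    refine IsOpen.mem_nhds ?_ ⟨hc1, hc2, by rw [hR]; linarith⟩
    have k1 : Continuous fun r' : ℂ => (tum m s.im * r').re :=
      Complex.continuous_re.comp (continuous_const.mul continuous_id)
    have k2 : Continuous fun r' : ℂ => ((tum m s.im)⁻¹ * r').re :=
      Complex.continuous_re.comp (continuous_const.mul continuous_id)
    exact (isOpen_lt continuous_const k1).inter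
      ((isOpen_lt continuous_const k2).inter (isOpen_lt continuous_norm continuous_const))
  set K : ℝ := Am m * R ^ (m + 2) * Real.exp (π * |s.im|) with hKd
  have hp := Real.pi_pos
  have hAm := Am_nonneg m
  have hK0 : 0 ≤ K := by positivity
  have hdom : ∀ u : ℝ, 1 < u → ∀ r' ∈ {r' : ℂ | c < (tum m s.im * r').re ∧
      c < ((tum m s.im)⁻¹ * r').re ∧ ‖r'‖ < R}, ‖Kdm m (tum m s.im) s r' u‖ ≤
      2 * K * (((m + 3).factorial : ℝ) / (π * c) ^ (m + 3)) * Real.exp (-(π * c * u)) := by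
    rintro u hu r' ⟨h1, h2, h3⟩
    have hu0 : 0 < u := by linarith
    unfold Kdm
    rw [norm_div, Complex.norm_real, Real.norm_of_nonneg hu0.le]
    have g1 := dtermm_le m (tum m s.im) s r' u c R hn1 hu h1 h3 hR1 (by linarith [hs'.2])
    have g2 := dtermm_le m (tum m s.im)⁻¹ (1 - s) r' u c R hn2 hu h2 h3 hR1
      (by rw [Complex.sub_re, Complex.one_re]; linarith [hs'.1])
    have e3 : |(1 - s).im| = |s.im| := by
      rw [Complex.sub_im, Complex.one_im, zero_sub, abs_neg]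
    rw [e3, ← hKd] at g2
    rw [← hKd] at g1
    have g3 : ‖pd m (tum m s.im * u * r') * (tum m s.im * u) * (tum m s.im * u) ^ s +
        pd m ((tum m s.im)⁻¹ * u * r') * ((tum m s.im)⁻¹ * u) *
          ((tum m s.im)⁻¹ * u) ^ (1 - s)‖ / u ≤
        (2 * (K * (u ^ (m + 4) * Real.exp (-(2 * π * c * u))))) / u := by
      refine div_le_div_of_nonneg_right ?_ hu0.le
      refine (norm_add_le _ _).trans ?_
      linarith
    refine g3.trans ?_
    have e4 : (2 * (K * (u ^ (m + 4) * Real.exp (-(2 * π * c * u))))) / u =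
        2 * K * (u ^ (m + 3) * Real.exp (-(2 * (π * c) * u))) := by
      have : 2 * π * c * u = 2 * (π * c) * u := by ring
      rw [this, pow_succ u (m + 3)]
      field_simp
    rw [e4]
    calc 2 * K * (u ^ (m + 3) * Real.exp (-(2 * (π * c) * u))) ≤
          2 * K * (((m + 3).factorial : ℝ) / (π * c) ^ (m + 3) * Real.exp (-(π * c * u))) :=
          mul_le_mul_of_nonneg_left (pow_exp (m + 3) (π * c) u (by positivity) hu0)
            (by positivity)
      _ = _ := by ring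
  have hmain := hasDerivAt_integral_of_dominated_loc_of_deriv_le
    (μ := volume.restrict (Ioi (1 : ℝ))) (F := fun r u => Kmi m (tum m s.im) s r u)
    (F' := fun r u => Kdm m (tum m s.im) s r u) (x₀ := r)
    (bound := fun u => 2 * K * (((m + 3).factorial : ℝ) / (π * c) ^ (m + 3)) *
      Real.exp (-(π * c * u))) hS
    (Eventually.of_forall fun r' => (kmi_meas _ _ _ _).aestronglyMeasurable)
    (hK m (1 / 8) s r (by norm_num) le_rfl hs hr hi).1
    (kdm_meas _ _ _ _).aestronglyMeasurable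
    ((ae_restrict_mem measurableSet_Ioi).mono fun u hu r' hr' => hdom u hu r' hr')
    (by
      have h1 := integrableOn_exp_mul_Ioi (a := -(π * c)) (by
        have : 0 < π * c := by positivity
        linarith) 1
      have h2 : (fun u : ℝ => 2 * K * (((m + 3).factorial : ℝ) / (π * c) ^ (m + 3)) *
          Real.exp (-(π * c * u))) =
          fun u : ℝ => 2 * K * (((m + 3).factorial : ℝ) / (π * c) ^ (m + 3)) *
            Real.exp (-(π * c) * u) := by
        funext u; rw [neg_mul]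
      rw [h2]
      exact h1.const_mul _)
    ((ae_restrict_mem measurableSet_Ioi).mono fun u hu r' hr' => by
      have h1 := ((dtermm m (tum m s.im) s r' u).add
        (dtermm m (tum m s.im)⁻¹ (1 - s) r' u)).div_const (u : ℂ)
      exact h1)
  exact hmain.2.differentiableAt

end Pool.Agent.H19.FC
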