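import Pool.Agent.H89.FC.Targets
import Pool.Agent.H34.FM.TM

/-!
# The twisted second moment of weight `2 m` over the classes of forms
-/

set_option autoImplicit false

open MeasureTheory Set Filter
open scoped Real Matrix MatrixGroups

namespace Pool.Agent.H19.FC

open Pool.Agent.H31.CN Pool.Agent.H89.FM Pool.Agent.H89.FC Pool.Agent.H34.FM

theorem pf_TMm (hBOX : T_BOXm) (hRED : T_RED) (hBIV : T_BIVm) : T_TMm := by
  intro ε hε
  obtain ⟨κ, hκ, hκ8, δ, hδ, hδ8, C, k, hC, hB⟩ := hBOX (ε / 2) (by linarith)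
  refine ⟨κ, hκ, hκ8, δ, hδ, C * (1 + 4 / ε), k, ?_⟩
  intro m s Y N α S hs hY hN hNY hα hS hinj
  have hY0 : 0 < Y := by linarith
  have hpos : ∀ Q ∈ S, 0 < dsc Q := by
    intro Q hQ
    have h := (hS Q hQ).2.1
    have h1 : (0 : ℝ) < dsc Q := lt_of_lt_of_le (by positivity) h
    exact_mod_cast h1
  choose! g hg using fun Q (hQ : Q ∈ S) => hRED Q (hS Q hQ).1 (hpos Q hQ)
  have hap : ∀ Q ∈ S, 0 < (act Q (g Q)).1 := fun Q hQ =>
    (hBIV m s α N Q (g Q) (hS Q hQ).1 (hpos Q hQ)).1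
  have hdp : ∀ Q ∈ S, dsc (act Q (g Q)) = dsc Q := fun Q hQ =>
    (hBIV m s α N Q (g Q) (hS Q hQ).1 (hpos Q hQ)).2.1
  have haY : ∀ Q ∈ S, ((act Q (g Q)).1 : ℝ) ≤ Y := by
    intro Q hQ
    obtain ⟨h1, h2⟩ := hg Q hQ
    have h3 := hap Q hQ
    have h4 : (act Q (g Q)).2.1 ^ 2 ≤ (act Q (g Q)).1 ^ 2 := sq_le_sq' (abs_le.1 h1).1 (abs_le.1 h1).2
    have h5 : (act Q (g Q)).1 * (act Q (g Q)).1 ≤ (act Q (g Q)).1 * (act Q (g Q)).2.2 :=
      mul_le_mul_of_nonneg_left h2 h3.le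
    have h6 : (act Q (g Q)).1 ^ 2 ≤ dsc Q := by
      rw [← hdp Q hQ]
      unfold dsc
      nlinarith
    have h7 : ((act Q (g Q)).1 : ℝ) ^ 2 ≤ Y ^ 2 := by
      have h8 : (((act Q (g Q)).1 ^ 2 : ℤ) : ℝ) ≤ (dsc Q : ℝ) := by exact_mod_cast h6
      push_cast at h8
      exact h8.trans (hS Q hQ).2.2
    exact le_of_sq_le_sq h7 hY0.le
  set kk : QF → ℕ := fun Q => Nat.log 2 ⌊Y / ((act Q (g Q)).1 : ℝ)⌋₊ with hkk
  have hk : ∀ Q ∈ S, (2 : ℝ) ^ (kk Q) * ((act Q (g Q)).1 : ℝ) ≤ Y ∧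
      Y < 2 * 2 ^ (kk Q) * ((act Q (g Q)).1 : ℝ) ∧ kk Q ≤ Nat.log 2 ⌊Y⌋₊ := by
    intro Q hQ
    have ha1 : (1 : ℝ) ≤ ((act Q (g Q)).1 : ℝ) := by
      have : (1 : ℤ) ≤ (act Q (g Q)).1 := hap Q hQ
      exact_mod_cast this
    have ha0 : (0 : ℝ) < ((act Q (g Q)).1 : ℝ) := by linarith
    have h1 : 1 ≤ Y / ((act Q (g Q)).1 : ℝ) := (one_le_div ha0).2 (haY Q hQ)
    have hf : ⌊Y / ((act Q (g Q)).1 : ℝ)⌋₊ ≠ 0 := by
      have : 1 ≤ ⌊Y / ((act Q (g Q)).1 : ℝ)⌋₊ := Nat.le_floor (by exact_mod_cast h1)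
      omega
    have h2 : 2 ^ (kk Q) ≤ ⌊Y / ((act Q (g Q)).1 : ℝ)⌋₊ := Nat.pow_log_le_self 2 hf
    have h3 : ((2 ^ (kk Q) : ℕ) : ℝ) ≤ (⌊Y / ((act Q (g Q)).1 : ℝ)⌋₊ : ℝ) := by exact_mod_cast h2
    push_cast at h3
    have h4 : (2 : ℝ) ^ (kk Q) ≤ Y / ((act Q (g Q)).1 : ℝ) :=
      h3.trans (Nat.floor_le (by linarith))
    have h5 : ⌊Y / ((act Q (g Q)).1 : ℝ)⌋₊ < 2 ^ (kk Q + 1) :=
      Nat.lt_pow_succ_log_self (by norm_num) _
    have h6 : Y / ((act Q (g Q)).1 : ℝ) < (2 : ℝ) ^ (kk Q + 1) := by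
      have h7 := Nat.lt_floor_add_one (Y / ((act Q (g Q)).1 : ℝ))
      have h8 : ((⌊Y / ((act Q (g Q)).1 : ℝ)⌋₊ + 1 : ℕ) : ℝ) ≤ ((2 ^ (kk Q + 1) : ℕ) : ℝ) := by
        exact_mod_cast h5
      push_cast at h8
      linarith
    refine ⟨(le_div_iff₀ ha0).1 h4, ?_, ?_⟩
    · have h9 := (div_lt_iff₀ ha0).1 h6
      rw [pow_succ] at h9
      linarith
    · refine Nat.log_mono_right (Nat.floor_mono ?_)
      exact div_le_self hY0.le ha1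
  set B : ℝ := (1 + |s.im| + |(m : ℝ)|) ^ k * cG m.natAbs s.im ^ 2 * Y ^ (3 + ε / 2) * N with hBd
  have hB0 : 0 ≤ B := by positivity
  have hfib : ∀ i : ℕ, ∑ Q ∈ S.filter (fun Q => kk Q = i), ‖Bm m s α N Q‖ ^ 2 ≤ C * B := by
    intro i
    rcases (S.filter (fun Q => kk Q = i)).eq_empty_or_nonempty with h0 | h0
    · rw [h0, Finset.sum_empty]
      positivity
    obtain ⟨Q₀, hQ₀⟩ := h0
    rw [Finset.mem_filter] at hQ₀
    have hρ1 : (1 : ℝ) ≤ 2 ^ i := one_le_pow₀ (by norm_num)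
    have hρY : (2 : ℝ) ^ i ≤ Y := by
      have h1 := (hk Q₀ hQ₀.1).1
      rw [hQ₀.2] at h1
      have ha1 : (1 : ℝ) ≤ ((act Q₀ (g Q₀)).1 : ℝ) := by
        have : (1 : ℤ) ≤ (act Q₀ (g Q₀)).1 := hap Q₀ hQ₀.1
        exact_mod_cast this
      exact (le_mul_of_one_le_right (by positivity) ha1).trans h1
    set F : QF × ℕ → QF := fun p => act (act p.1 (g p.1)) (tj (p.2 : ℤ)) with hF
    set U : Finset (QF × ℕ) := (S.filter (fun Q => kk Q = i)) ×ˢ Finset.range (2 ^ i) with hU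
    have hFinj : Set.InjOn F U := by
      intro p hp p' hp' he
      rw [hU, Finset.mem_coe, Finset.mem_product, Finset.mem_filter] at hp hp'
      have h1 : act p.1 (g p.1 * tj (p.2 : ℤ) * (g p'.1 * tj (p'.2 : ℤ))⁻¹) = p'.1 := by
        have e1 : ∀ (Q : QF) (x y : SL(2, ℤ)), act (act Q x) y = act Q (x * y) := fun Q x y =>
          (Pool.Agent.H50.CN.pf_ACT Q x y 0).2.2.2.1
        have e2 : ∀ Q : QF, act Q 1 = Q := fun Q => (Pool.Agent.H50.CN.pf_ACT Q 1 1 0).2.2.1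
        have e3 : act p.1 (g p.1 * tj (p.2 : ℤ)) = act p'.1 (g p'.1 * tj (p'.2 : ℤ)) := by
          rw [← e1, ← e1]
          exact he
        rw [← e1, e3, e1, mul_inv_cancel, e2]
      have h2 : p.1 = p'.1 := hinj p.1 hp.1.1 p'.1 hp'.1.1 _ h1
      have h3 : F p = F p' := he
      simp only [hF] at h3
      rw [h2, act_tj, act_tj] at h3
      have h4 := (Prod.mk.inj (Prod.mk.inj h3).2).1
      have h5 := hap p'.1 hp'.1.1
      have h6 : 2 * (act p'.1 (g p'.1)).1 * (p.2 : ℤ) = 2 * (act p'.1 (g p'.1)).1 * (p'.2 : ℤ) := by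
        linarith
      have h7 : (p.2 : ℤ) = (p'.2 : ℤ) := mul_left_cancel₀ (by positivity) h6
      exact Prod.ext h2 (by exact_mod_cast h7)
    have hbf : ∀ Q ∈ S, ∀ j : ℤ, ‖Bm m s α N (act (act Q (g Q)) (tj j))‖ = ‖Bm m s α N Q‖ ∧
        dsc (act (act Q (g Q)) (tj j)) = dsc Q := by
      intro Q hQ j
      have h1 := hBIV m s α N Q (g Q) (hS Q hQ).1 (hpos Q hQ)
      have h2 := hBIV m s α N (act Q (g Q)) (tj j) h1.1 (h1.2.1 ▸ hpos Q hQ)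
      exact ⟨h2.2.2.trans h1.2.2, h2.2.1.trans h1.2.1⟩
    have hsum : ∑ R ∈ U.image F, ‖Bm m s α N R‖ ^ 2 =
        2 ^ i * ∑ Q ∈ S.filter (fun Q => kk Q = i), ‖Bm m s α N Q‖ ^ 2 := by
      rw [Finset.sum_image hFinj, hU, Finset.sum_product, Finset.mul_sum]
      refine Finset.sum_congr rfl fun Q hQ => ?_
      rw [Finset.mem_filter] at hQ
      have h1 : ∀ j ∈ Finset.range (2 ^ i), ‖Bm m s α N (F (Q, j))‖ ^ 2 = ‖Bm m s α N Q‖ ^ 2 := by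
        intro j _
        simp only [hF]
        rw [(hbf Q hQ.1 (j : ℤ)).1]
      rw [Finset.sum_congr rfl h1, Finset.sum_const, Finset.card_range, nsmul_eq_mul]
      push_cast
      ring
    have hbox := hB m s Y (2 ^ i) N α (U.image F) hs hY hρ1 hρY hN hNY hα (by
      intro R hR
      rw [Finset.mem_image] at hR
      obtain ⟨p, hp, rfl⟩ := hR
      rw [hU, Finset.mem_product, Finset.mem_filter, Finset.mem_range] at hp
      obtain ⟨⟨hpS, hpk⟩, hpj⟩ := hp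
      have h1 := hk p.1 hpS
      rw [hpk] at h1
      have h2 := hg p.1 hpS
      have h3 := hap p.1 hpS
      have h4 := (hbf p.1 hpS (p.2 : ℤ)).2
      have h5 := hS p.1 hpS
      have e1 : (F p).1 = (act p.1 (g p.1)).1 := by
        simp only [hF]
        rw [act_tj]
      have e2 : (F p).2.1 = (act p.1 (g p.1)).2.1 + 2 * (act p.1 (g p.1)).1 * (p.2 : ℤ) := by
        simp only [hF]
        rw [act_tj]
      have e3 : dsc (F p) = dsc p.1 := h4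
      rw [e1, e2, e3]
      refine ⟨h1.2.1, h1.1, ?_, h5.2.1, h5.2.2⟩
      have ha0 : (0 : ℝ) < ((act p.1 (g p.1)).1 : ℝ) := by exact_mod_cast h3
      have h6 : |((act p.1 (g p.1)).2.1 : ℝ)| ≤ ((act p.1 (g p.1)).1 : ℝ) := by
        exact_mod_cast h2.1
      have h7 : ((p.2 : ℕ) : ℝ) + 1 ≤ 2 ^ i := by exact_mod_cast hpj
      have h8 : (0 : ℝ) ≤ ((p.2 : ℕ) : ℝ) := Nat.cast_nonneg _
      push_cast
      calc |((act p.1 (g p.1)).2.1 : ℝ) + 2 * ((act p.1 (g p.1)).1 : ℝ) * ((p.2 : ℕ) : ℝ)|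
          ≤ |((act p.1 (g p.1)).2.1 : ℝ)| + |2 * ((act p.1 (g p.1)).1 : ℝ) * ((p.2 : ℕ) : ℝ)| :=
            abs_add_le _ _
        _ = |((act p.1 (g p.1)).2.1 : ℝ)| + 2 * ((act p.1 (g p.1)).1 : ℝ) * ((p.2 : ℕ) : ℝ) := by
            rw [abs_of_nonneg (a := 2 * ((act p.1 (g p.1)).1 : ℝ) * ((p.2 : ℕ) : ℝ)) (by positivity)]
        _ ≤ ((act p.1 (g p.1)).1 : ℝ) + 2 * ((act p.1 (g p.1)).1 : ℝ) * (2 ^ i - 1) := by
            have h9 : 2 * ((act p.1 (g p.1)).1 : ℝ) * ((p.2 : ℕ) : ℝ) ≤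
                2 * ((act p.1 (g p.1)).1 : ℝ) * (2 ^ i - 1) :=
              mul_le_mul_of_nonneg_left (by linarith) (by positivity)
            linarith
        _ ≤ 2 * ((2 : ℝ) ^ i * ((act p.1 (g p.1)).1 : ℝ)) := by
            have h10 : 2 * ((2 : ℝ) ^ i * ((act p.1 (g p.1)).1 : ℝ)) =
              2 * ((act p.1 (g p.1)).1 : ℝ) * (2 ^ i - 1) + 2 * ((act p.1 (g p.1)).1 : ℝ) := by ring
            linarith
        _ ≤ 3 * Y := by linarith [h1.1])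
    rw [hsum] at hbox
    have h11 : (2 : ℝ) ^ i * ∑ Q ∈ S.filter (fun Q => kk Q = i), ‖Bm m s α N Q‖ ^ 2 ≤
        2 ^ i * (C * B) := by
      refine hbox.trans (le_of_eq ?_)
      rw [hBd]
      ring
    exact le_of_mul_le_mul_left h11 (by positivity)
  have hmaps : ∀ Q ∈ S, kk Q ∈ Finset.range (Nat.log 2 ⌊Y⌋₊ + 1) := by
    intro Q hQ
    rw [Finset.mem_range]
    exact Nat.lt_succ_of_le (hk Q hQ).2.2
  rw [← Finset.sum_fiberwise_of_maps_to hmaps]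
  have hY3 : Y ^ (3 + ε) = Y ^ (ε / 2) * Y ^ (3 + ε / 2) := by
    rw [← Real.rpow_add hY0]
    congr 1
    ring
  calc ∑ i ∈ Finset.range (Nat.log 2 ⌊Y⌋₊ + 1),
      ∑ Q ∈ S.filter (fun Q => kk Q = i), ‖Bm m s α N Q‖ ^ 2
      ≤ ∑ _i ∈ Finset.range (Nat.log 2 ⌊Y⌋₊ + 1), C * B := Finset.sum_le_sum fun i _ => hfib i
    _ = ((Nat.log 2 ⌊Y⌋₊ + 1 : ℕ) : ℝ) * (C * B) := by
        rw [Finset.sum_const, Finset.card_range, nsmul_eq_mul]
    _ ≤ (1 + 4 / ε) * Y ^ (ε / 2) * (C * B) :=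
        mul_le_mul_of_nonneg_right (tm_log ε Y hε hY) (mul_nonneg hC hB0)
    _ = C * (1 + 4 / ε) * (1 + |s.im| + |(m : ℝ)|) ^ k * cG m.natAbs s.im ^ 2 * Y ^ (3 + ε) * N := by
        rw [hY3, hBd]
        ring

end Pool.Agent.H19.FC
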