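import Pool.Agent.H6.FC.Lem

/-!
Row PA5 of the board cfp_modules (MP_7500ea_al).
-/

set_option autoImplicit false

namespace Pool.Agent.H19.FC

open FI AMc AMt

/-- the elements of the four-group -/
def v4 : List (Equiv.Perm (Fin 5)) := [1, Equiv.swap 0 1 * Equiv.swap 2 3,
  Equiv.swap 0 2 * Equiv.swap 1 3, Equiv.swap 0 3 * Equiv.swap 1 2]

lemma s5_list : ∀ σ : Equiv.Perm (Fin 5), Equiv.Perm.sign σ = 1 → σ 4 = 4 → σ * σ = 1 →
    σ ∈ v4 := by
  unfold v4
  decide +kernel

lemma v4_prop : ∀ σ ∈ v4, Equiv.Perm.sign σ = 1 ∧ σ 4 = 4 ∧ σ * σ = 1 := by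
  unfold v4
  decide +kernel

lemma v4_mul : ∀ σ ∈ v4, ∀ τ ∈ v4, (σ * τ) * (σ * τ) = 1 := by
  unfold v4
  decide +kernel

lemma v4_nodup : v4.Nodup := by
  unfold v4
  decide +kernel

lemma card_stab : Fintype.card {σ : Equiv.Perm (Fin 5) // Equiv.Perm.sign σ = 1 ∧ σ 4 = 4} =
    12 := by
  decide +kernel

/-- the four-group in `A₅` -/
def P0 : Subgroup (alternatingGroup (Fin 5)) where
  carrier := {σ | (σ : Equiv.Perm (Fin 5)) ∈ v4}
  mul_mem' := by
    intro a b ha hb
    obtain ⟨a1, a2, a3⟩ := v4_prop _ ha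
    obtain ⟨b1, b2, b3⟩ := v4_prop _ hb
    refine s5_list _ ?_ ?_ ?_
    · exact (Equiv.Perm.mem_alternatingGroup.1 (a * b).2)
    · change (a : Equiv.Perm (Fin 5)) ((b : Equiv.Perm (Fin 5)) 4) = 4
      rw [b2, a2]
    · exact v4_mul _ ha _ hb
  one_mem' := by
    change (1 : Equiv.Perm (Fin 5)) ∈ v4
    unfold v4
    exact List.mem_cons_self
  inv_mem' := by
    intro a ha
    obtain ⟨a1, a2, a3⟩ := v4_prop _ ha
    have h : (a⁻¹ : alternatingGroup (Fin 5)) = a := by
      apply Subtype.ext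
      exact inv_eq_of_mul_eq_one_right a3
    change ((a⁻¹ : alternatingGroup (Fin 5)) : Equiv.Perm (Fin 5)) ∈ v4
    rw [h]
    exact ha

/-- the stabiliser of the last point in `A₅` -/
def Q0 : Subgroup (alternatingGroup (Fin 5)) where
  carrier := {σ | (σ : Equiv.Perm (Fin 5)) 4 = 4}
  mul_mem' := by
    intro a b ha hb
    change (a : Equiv.Perm (Fin 5)) ((b : Equiv.Perm (Fin 5)) 4) = 4
    rw [show (b : Equiv.Perm (Fin 5)) 4 = 4 from hb]
    exact ha
  one_mem' := rfl
  inv_mem' := by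
    intro a ha
    have h : (a : Equiv.Perm (Fin 5)) 4 = 4 := ha
    change ((a : Equiv.Perm (Fin 5)))⁻¹ 4 = 4
    rw [Equiv.Perm.inv_eq_iff_eq, h]

lemma card_P0 : Nat.card P0 = 4 := by
  have e : P0 ≃ {σ : Equiv.Perm (Fin 5) // σ ∈ v4.toFinset} :=
    { toFun := fun x => ⟨((x : alternatingGroup (Fin 5)) : Equiv.Perm (Fin 5)),
        List.mem_toFinset.2 x.2⟩
      invFun := fun x => ⟨⟨x.1, Equiv.Perm.mem_alternatingGroup.2
        (v4_prop _ (List.mem_toFinset.1 x.2)).1⟩, List.mem_toFinset.1 x.2⟩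
      left_inv := fun x => rfl
      right_inv := fun x => rfl }
  rw [Nat.card_congr e, Nat.card_eq_fintype_card, Fintype.card_coe,
    List.toFinset_card_of_nodup v4_nodup]
  rfl

lemma card_Q0 : Nat.card Q0 = 12 := by
  have e : Q0 ≃ {σ : Equiv.Perm (Fin 5) // Equiv.Perm.sign σ = 1 ∧ σ 4 = 4} :=
    { toFun := fun x => ⟨((x : alternatingGroup (Fin 5)) : Equiv.Perm (Fin 5)),
        Equiv.Perm.mem_alternatingGroup.1 (x : alternatingGroup (Fin 5)).2, x.2⟩
      invFun := fun x => ⟨⟨x.1, Equiv.Perm.mem_alternatingGroup.2 x.2.1⟩, x.2.2⟩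
      left_inv := fun x => rfl
      right_inv := fun x => rfl }
  rw [Nat.card_congr e, Nat.card_eq_fintype_card, card_stab]

lemma card_A5 : Nat.card (alternatingGroup (Fin 5)) = 60 := by
  rw [nat_card_alternatingGroup, Nat.card_eq_fintype_card, Fintype.card_fin]
  decide

/-- conjugation with a fixing element -/
lemma Q0_norm (g σ : alternatingGroup (Fin 5)) (hg : g ∈ Q0) (hσ : σ ∈ P0) :
    g * σ * g⁻¹ ∈ P0 := by
  obtain ⟨a1, a2, a3⟩ := v4_prop _ hσ
  have hg' : (g : Equiv.Perm (Fin 5)) 4 = 4 := hg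
  refine s5_list _ ?_ ?_ ?_
  · exact (Equiv.Perm.mem_alternatingGroup.1 (g * σ * g⁻¹).2)
  · change (g : Equiv.Perm (Fin 5)) ((σ : Equiv.Perm (Fin 5))
      (((g : Equiv.Perm (Fin 5)))⁻¹ 4)) = 4
    have h : ((g : Equiv.Perm (Fin 5)))⁻¹ 4 = 4 := by
      rw [Equiv.Perm.inv_eq_iff_eq, hg']
    rw [h, a2, hg']
  · change ((g : Equiv.Perm (Fin 5)) * σ * (g : Equiv.Perm (Fin 5))⁻¹) *
      ((g : Equiv.Perm (Fin 5)) * σ * (g : Equiv.Perm (Fin 5))⁻¹) = 1
    have h : ((g : Equiv.Perm (Fin 5)) * σ * (g : Equiv.Perm (Fin 5))⁻¹) *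
      ((g : Equiv.Perm (Fin 5)) * σ * (g : Equiv.Perm (Fin 5))⁻¹) =
      (g : Equiv.Perm (Fin 5)) * ((σ : Equiv.Perm (Fin 5)) * σ) *
        (g : Equiv.Perm (Fin 5))⁻¹ := by group
    rw [h, a3]
    group

section syl

variable {G : Type} [Group G] [Finite G] (φ : G ≃* alternatingGroup (Fin 5))

include φ

omit [Finite G] in
lemma simG : IsSimpleGroup G := by
  have h5 : IsSimpleGroup (alternatingGroup (Fin 5)) :=
    alternatingGroup.isSimpleGroup (by simp)
  have hn : Nontrivial G := φ.toEquiv.nontrivial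
  exact IsSimpleGroup.isSimpleGroup_of_surjective φ.symm.toMonoidHom φ.symm.surjective

omit [Finite G] in
lemma card60 : Nat.card G = 60 := by
  rw [Nat.card_congr φ.toEquiv, card_A5]

/-- a Sylow subgroup whose normaliser has index at most five -/
lemma syl_exists : ∃ P : Sylow 2 G, Nat.card P = 4 ∧ (Subgroup.normalizer (P : Set G)).index ≤ 5 := by
  have : Fact (Nat.Prime 2) := ⟨Nat.prime_two⟩
  have hc : Nat.card (P0.comap φ.toMonoidHom) = 4 := by
    rw [← card_P0]
    refine Nat.card_congr ?_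
    exact {
      toFun := fun x => ⟨φ x.1, x.2⟩
      invFun := fun x => ⟨φ.symm x.1, by
        change φ (φ.symm x.1) ∈ P0
        rw [φ.apply_symm_apply]
        exact x.2⟩
      left_inv := fun x => Subtype.ext (φ.symm_apply_apply x.1)
      right_inv := fun x => Subtype.ext (φ.apply_symm_apply x.1) }
  have hf : Nat.card (P0.comap φ.toMonoidHom) = 2 ^ (Nat.card G).factorization 2 := by
    rw [hc, card60 φ]
    have h : (60 : ℕ).factorization 2 = 2 := by
      rw [Nat.factorization_def _ Nat.prime_two]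
      decide +kernel
    rw [h]
    rfl
  refine ⟨Sylow.ofCard (P0.comap φ.toMonoidHom) hf, hc, ?_⟩
  have hQ : Nat.card (Q0.comap φ.toMonoidHom) = 12 := by
    rw [← card_Q0]
    refine Nat.card_congr ?_
    exact {
      toFun := fun x => ⟨φ x.1, x.2⟩
      invFun := fun x => ⟨φ.symm x.1, by
        change φ (φ.symm x.1) ∈ Q0
        rw [φ.apply_symm_apply]
        exact x.2⟩
      left_inv := fun x => Subtype.ext (φ.symm_apply_apply x.1)
      right_inv := fun x => Subtype.ext (φ.apply_symm_apply x.1) }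
  have hQ5 : (Q0.comap φ.toMonoidHom).index = 5 := by
    have h := (Q0.comap φ.toMonoidHom).card_mul_index
    rw [hQ, card60 φ] at h
    omega
  have hle : Q0.comap φ.toMonoidHom ≤
      Subgroup.normalizer ((P0.comap φ.toMonoidHom : Subgroup G) : Set G) := by
    intro g hg
    rw [Subgroup.mem_set_normalizer_iff]
    have key : ∀ g : G, g ∈ Q0.comap φ.toMonoidHom → ∀ h : G, h ∈ P0.comap φ.toMonoidHom →
        g * h * g⁻¹ ∈ P0.comap φ.toMonoidHom := by
      intro g hg h hh
      change φ (g * h * g⁻¹) ∈ P0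
      rw [map_mul, map_mul, map_inv]
      exact Q0_norm _ _ hg hh
    intro h
    constructor
    · intro hh
      exact key g hg h hh
    · intro hh
      have h1 := key g⁻¹ (Subgroup.inv_mem _ hg) _ hh
      have h2 : g⁻¹ * (g * h * g⁻¹) * g⁻¹⁻¹ = h := by group
      rw [h2] at h1
      exact h1
  have h1 := Subgroup.index_dvd_of_le hle
  rw [hQ5] at h1
  exact Nat.le_of_dvd (by norm_num) h1

lemma syl_card_ker : Nat.card (Sylow 2 G) = 5 ∧
    (MulAction.toPermHom G (Sylow 2 G)).ker = ⊥ := by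
  have : Fact (Nat.Prime 2) := ⟨Nat.prime_two⟩
  have hs := simG φ
  obtain ⟨P, hP4, hP5⟩ := syl_exists φ
  rw [← P.card_eq_index_normalizer] at hP5
  have hker : (MulAction.toPermHom G (Sylow 2 G)).ker = ⊥ := by
    rcases (MonoidHom.normal_ker (MulAction.toPermHom G (Sylow 2 G))).eq_bot_or_eq_top with h | h
    · exact h
    exfalso
    have hall : ∀ g : G, g ∈ Subgroup.normalizer (P : Set G) := by
      intro g
      rw [← Sylow.smul_eq_iff_mem_normalizer]
      have hg : g ∈ (MulAction.toPermHom G (Sylow 2 G)).ker := by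
        rw [h]
        exact Subgroup.mem_top g
      have h2 := congrArg (fun σ : Equiv.Perm (Sylow 2 G) => σ P) (MonoidHom.mem_ker.1 hg)
      exact h2
    have hn : (P : Subgroup G).Normal := by
      refine ⟨fun n hn g => ?_⟩
      exact ((Subgroup.mem_set_normalizer_iff).1 (hall g) n).1 hn
    rcases hn.eq_bot_or_eq_top with h2 | h2
    · have h3 : Nat.card (P : Subgroup G) = 1 := by
        rw [h2]
        exact Subgroup.card_bot
      have h4 : Nat.card (P : Subgroup G) = 4 := hP4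
      omega
    · have h3 : Nat.card (P : Subgroup G) = 60 := by
        rw [h2, Subgroup.card_top, card60 φ]
      have h4 : Nat.card (P : Subgroup G) = 4 := hP4
      omega
  refine ⟨?_, hker⟩
  have hinj : Function.Injective (MulAction.toPermHom G (Sylow 2 G)) :=
    (MonoidHom.ker_eq_bot_iff _).1 hker
  have h1 := Nat.card_le_card_of_injective _ hinj
  rw [card60 φ, Nat.card_perm] at h1
  by_contra hne
  have h2 : Nat.card (Sylow 2 G) ≤ 4 := by omega
  have h3 : (Nat.card (Sylow 2 G)).factorial ≤ (4 : ℕ).factorial := Nat.factorial_le h2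
  have h4 : (4 : ℕ).factorial = 24 := rfl
  omega

end syl

/-- Row PA5. -/
theorem pf_PA5 (S5S : T_S5S) (S5V : T_S5V) (AL5 : T_AL5) (ALS : T_ALS) (SOL : T_SOL) :
    T_PA5 := by
  classical
  intro A _ _ S' hS' hC hφ
  obtain ⟨φ⟩ := hφ
  have : Fact (Nat.Prime 2) := ⟨Nat.prime_two⟩
  obtain ⟨hc5, hker⟩ := syl_card_ker φ
  have hcS := card60 φ
  set f0 : A →* Equiv.Perm (Sylow 2 S') :=
    (MulAction.toPermHom (MulAut S') (Sylow 2 S')).comp MulAut.conjNormal with hf0
  have hval : ∀ s : S', f0 (s : A) = MulAction.toPermHom S' (Sylow 2 S') s := by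
    intro s
    rw [hf0, MonoidHom.comp_apply, MulAut.conjNormal_val]
    refine Equiv.ext (fun P => ?_)
    exact Sylow.smul_def.symm
  have hKS : ∀ s : S', f0 (s : A) = 1 → s = 1 := by
    intro s hs
    rw [hval] at hs
    have h1 : s ∈ (MulAction.toPermHom S' (Sylow 2 S')).ker := MonoidHom.mem_ker.2 hs
    rw [hker] at h1
    exact Subgroup.mem_bot.1 h1
  have hinj : Function.Injective f0 := by
    rw [injective_iff_map_eq_one]
    intro a ha
    refine hC a (fun s hs => ?_)
    have hm : a * s * a⁻¹ * s⁻¹ ∈ S' := S'.mul_mem (hS'.conj_mem s hs a) (S'.inv_mem hs)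
    have h1 : f0 (a * s * a⁻¹ * s⁻¹) = 1 := by
      rw [map_mul, map_mul, map_mul, map_inv, map_inv, ha]
      group
    have h2 := hKS ⟨a * s * a⁻¹ * s⁻¹, hm⟩ h1
    have h3 : a * s * a⁻¹ * s⁻¹ = 1 := congrArg Subtype.val h2
    have h4 : a * s * a⁻¹ = s := by
      rwa [mul_inv_eq_one] at h3
    rwa [mul_inv_eq_iff_eq_mul] at h4
  have hfin : Finite (Sylow 2 S') := inferInstance
  have e : Sylow 2 S' ≃ Fin 5 := Finite.equivFinOfCardEq hc5
  set f : A →* Equiv.Perm (Fin 5) := (e.permCongrHom.toMonoidHom).comp f0 with hf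
  have hfi : Function.Injective f := by
    intro a b hab
    exact hinj (e.permCongrHom.injective hab)
  have hmc : Nat.card (S'.map f) = 60 := by
    rw [← hcS]
    exact (Nat.card_congr (S'.equivMapOfInjective f hfi).toEquiv).symm
  have hle : A5 ≤ S'.map f := by
    by_contra hn
    have h1 := (S5S (S'.map f) ⊤ le_top le_top hn).1
    omega
  have heq : A5 = S'.map f := by
    refine Subgroup.eq_of_le_of_card_ge hle ?_
    rw [hmc]
    exact card_A5.ge
  refine ⟨f, hfi, le_trans hle ?_, ?_⟩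
  · exact Subgroup.map_le_range f S'
  · rw [heq, Subgroup.comap_map_eq_self_of_injective hfi]

end Pool.Agent.H19.FC
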