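import Pool.Agent.H6.FC.Lem
import Pool.Agent.H19.FC.EXI

/-!
Row PAV of the board cfp_modules (MP_7500ea_al).
-/

set_option autoImplicit false

open scoped Classical ComplexConjugate

namespace Pool.Agent.H19.FC

open FI AMc AMt

/-- Row PAV. -/
theorem pf_PAV (PAM : T_PAM) (PAU : T_PAU) (PSI : T_PSI) (CRD : T_CRD) (ALQ : T_ALQ)
    (ALS : T_ALS) (SOL : T_SOL) : T_PAV := by
  intro q hq hq7
  obtain ⟨ψ, hψ⟩ := PSI q hq
  obtain ⟨hfin, hcard, hidx, hnor⟩ := CRD q hq hq7
  have hfinL : Finite (PL q) := Finite.of_equiv (PS q) ψ.symm.toEquiv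
  have hAl : Al (PG q) (PS q) := by
    have h := ALQ q (PG q) (MonoidHom.id _) hq hq7 Function.injective_id (by
      rw [MonoidHom.range_eq_top.2 Function.surjective_id]
      exact le_top)
    exact h
  obtain ⟨-, -, -, hcen, -⟩ := ALS (PG q) (PS q) hAl
  have hj : Function.Injective (MulAut.conj : PL q →* MulAut (PL q)) := by
    rw [injective_iff_map_eq_one]
    intro x hx
    have h1 : ((ψ x : PS q) : PG q) = 1 := by
      refine hcen _ (fun s hs => ?_)
      have h2 := congrArg (fun f : MulAut (PL q) => f (ψ.symm ⟨s, hs⟩)) hx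
      have h3 : x * ψ.symm ⟨s, hs⟩ * x⁻¹ = ψ.symm ⟨s, hs⟩ := h2
      rw [mul_inv_eq_iff_eq_mul] at h3
      have h4 := congrArg (fun y : PL q => ((ψ y : PS q) : PG q)) h3
      simp only [map_mul, MulEquiv.apply_symm_apply, Subgroup.coe_mul] at h4
      exact h4
    have h5 : ψ x = 1 := Subtype.ext h1
    exact (map_eq_one_iff ψ ψ.injective).1 h5
  set K : Subgroup (MulAut (PL q)) := (MulAut.conj : PL q →* MulAut (PL q)).range with hK
  have hKn : K.Normal := by
    refine ⟨?_⟩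
    rintro _ ⟨s, rfl⟩ α
    exact ⟨α s, (conj_conj_eq α s).symm⟩
  have hKc : ∀ a : MulAut (PL q), (∀ s ∈ K, a * s = s * a) → a = 1 := by
    intro a ha
    ext x
    have h1 := ha _ ⟨x, rfl⟩
    have h2 : a * MulAut.conj x * a⁻¹ = MulAut.conj x := by
      rw [h1, mul_inv_cancel_right]
    rw [conj_conj_eq] at h2
    exact hj h2
  have hKe : Nonempty (K ≃* PL q) := ⟨(MonoidHom.ofInjective hj).symm⟩
  obtain ⟨f, hfi, hle, hS'⟩ := PAM q hq hq7 (MulAut (PL q)) K hKn hKc hKe
  have htwo : ∀ α β : MulAut (PL q), α ∉ K → β ∉ K → α * β⁻¹ ∈ K := by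
    intro α β h1 h2
    rw [hS', Subgroup.mem_comap] at h1 h2 ⊢
    rw [map_mul, Subgroup.mul_mem_iff_of_index_two hidx, map_inv, inv_mem_iff]
    exact iff_of_false h1 h2
  by_cases hall : ∀ α : MulAut (PL q), α ∈ K
  · refine ⟨1, 1, ?_, fun α => Or.inl (hall α)⟩
    intro A B h
    rw [one_mul, inv_one, mul_one] at h
    have h2 : A = B := by
      have h3 := congrArg (fun M : Matrix.GeneralLinearGroup (Fin 2) (ZMod q) =>
        (M : Matrix (Fin 2) (Fin 2) (ZMod q))) h
      exact (Subtype.ext h3).symm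
    rw [h2]
    rfl
  · push Not at hall
    obtain ⟨α0, hα0⟩ := hall
    obtain ⟨g', hg'⟩ := PAU q hq hq7 ((ψ.symm.trans α0).trans ψ)
    obtain ⟨g, rfl⟩ := QuotientGroup.mk_surjective g'
    refine ⟨α0, g, ?_, ?_⟩
    · intro A B h
      apply ψ.injective
      apply Subtype.ext
      have h1 := hg' (ψ (QuotientGroup.mk A))
      have h2 : ((ψ.symm.trans α0).trans ψ) (ψ (QuotientGroup.mk A)) =
          ψ (α0 (QuotientGroup.mk A)) := by
        change ψ (α0 (ψ.symm (ψ (QuotientGroup.mk A)))) = _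
        rw [ψ.symm_apply_apply]
      rw [h2, hψ A] at h1
      rw [h1, hψ B, h]
      rfl
    · intro α
      by_cases hα : α ∈ K
      · exact Or.inl hα
      · exact Or.inr (htwo α α0 hα hα0)

end Pool.Agent.H19.FC
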